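import Pool.Agent.Lib.MP_9322ca_co.FewSlopes

set_option autoImplicit false

namespace Pool.Agent.Results.MP_9322ca_co.InProgression

open Finset
open Pool.Agent.Results.MP_9322ca_co.ThetaKGeFour
open Pool.Agent.Lib.MP_9322ca_co

/-- all common divisors of the differences of `A` are at most `G` -/
def Good (G : ℕ) (A : Finset ℤ) : Prop :=
  ∀ g : ℕ, (∀ x ∈ A, ∀ y ∈ A, (g : ℤ) ∣ x - y) → g ≤ G

/-- the elements above `a` congruent to `a` modulo `g` -/
def Dv (Y : Finset ℤ) (g : ℕ) (a : ℤ) : Finset ℤ := Y.filter (fun b => a < b ∧ (g : ℤ) ∣ b - a)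

lemma count_mult (Y : Finset ℤ) (M : ℕ) (hY : ∀ y ∈ Y, 1 ≤ y ∧ y ≤ M) (a : ℤ) (ha : a ∈ Y)
    (g : ℕ) (hg : 0 < g) : ((Dv Y g a).card : ℝ) ≤ (M : ℝ) / g := by
  have hgz : (0 : ℤ) < g := by exact_mod_cast hg
  have h1 : (Dv Y g a).card ≤ M / g := by
    calc (Dv Y g a).card ≤ (Icc (1 : ℤ) ((M / g : ℕ) : ℤ)).card := by
          apply card_le_card_of_injOn (fun b => (b - a) / g)
          · intro b hb
            rw [mem_coe, Dv, mem_filter] at hb
            obtain ⟨hbY, hab, k, hk⟩ := hb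
            rw [mem_coe, mem_Icc]
            simp only
            rw [hk, Int.mul_ediv_cancel_left _ hgz.ne']
            have hk0 : 0 < k := by
              have : 0 < (g : ℤ) * k := by rw [← hk]; linarith
              exact pos_of_mul_pos_right this hgz.le
            refine ⟨by omega, ?_⟩
            push_cast
            rw [Int.le_ediv_iff_mul_le hgz]
            have h2 := (hY b hbY).2
            have h3 := (hY a ha).1
            nlinarith
          · intro b hb c hc hbc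
            rw [mem_coe, Dv, mem_filter] at hb hc
            obtain ⟨-, -, k, hk⟩ := hb
            obtain ⟨-, -, k', hk'⟩ := hc
            simp only at hbc
            rw [hk, hk', Int.mul_ediv_cancel_left _ hgz.ne', Int.mul_ediv_cancel_left _ hgz.ne'] at hbc
            rw [hbc, ← hk'] at hk
            linarith
      _ = M / g := by rw [Int.card_Icc, add_sub_cancel_right, Int.toNat_natCast]
  calc ((Dv Y g a).card : ℝ) ≤ ((M / g : ℕ) : ℝ) := by exact_mod_cast h1
    _ ≤ (M : ℝ) / g := Nat.cast_div_le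

open Classical in
lemma bad_count (Y : Finset ℤ) (M G : ℕ) (hG : 0 < G) (hY : ∀ y ∈ Y, 1 ≤ y ∧ y ≤ M) :
    (((Y.powersetCard 3).filter (fun A => ¬ Good G A)).card : ℝ) ≤
      (Y.card : ℝ) * (M : ℝ) ^ 2 / G := by
  have hsub : (Y.powersetCard 3).filter (fun A => ¬ Good G A) ⊆
      ((Ioc G M).sigma (fun g => Y.sigma (fun a => Dv Y g a ×ˢ Dv Y g a))).image
        (fun s => ({s.2.1, s.2.2.1, s.2.2.2} : Finset ℤ)) := by
    intro A hA
    rw [mem_filter, mem_powersetCard] at hA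
    obtain ⟨⟨hAY, hA3⟩, hb⟩ := hA
    unfold Good at hb
    push Not at hb
    obtain ⟨g, hg, hGg⟩ := hb
    have hne : A.Nonempty := by
      rw [← card_pos]; omega
    set a := A.min' hne with ha
    have haA : a ∈ A := min'_mem A hne
    have h2 : (A.erase a).card = 2 := by
      rw [card_erase_of_mem haA]; omega
    obtain ⟨b, c, hbc, he⟩ := card_eq_two.1 h2
    have hb : b ∈ A.erase a := by rw [he]; simp
    have hc : c ∈ A.erase a := by rw [he]; simp
    rw [mem_erase] at hb hc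
    have hab : a < b := lt_of_le_of_ne (min'_le A b hb.2) (Ne.symm hb.1)
    have hac : a < c := lt_of_le_of_ne (min'_le A c hc.2) (Ne.symm hc.1)
    rw [mem_image]
    refine ⟨⟨g, a, b, c⟩, ?_, ?_⟩
    · rw [mem_sigma]
      refine ⟨?_, ?_⟩
      · rw [mem_Ioc]
        refine ⟨hGg, ?_⟩
        have h3 := Int.le_of_dvd (by linarith) (hg b hb.2 a haA)
        have h4 := (hY b (hAY hb.2)).2
        have h5 := (hY a (hAY haA)).1
        simp only
        omega
      · rw [mem_sigma]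
        refine ⟨hAY haA, ?_⟩
        rw [mem_product]
        simp only [Dv, mem_filter]
        exact ⟨⟨hAY hb.2, hab, hg b hb.2 a haA⟩, hAY hc.2, hac, hg c hc.2 a haA⟩
    · simp only
      rw [← he, insert_erase haA]
  have h1 : ((Y.powersetCard 3).filter (fun A => ¬ Good G A)).card ≤
      ∑ g ∈ Ioc G M, ∑ a ∈ Y, (Dv Y g a).card ^ 2 := by
    calc _ ≤ _ := card_le_card hsub
      _ ≤ ((Ioc G M).sigma (fun g => Y.sigma (fun a => Dv Y g a ×ˢ Dv Y g a))).card :=
          card_image_le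
      _ = _ := by
          rw [card_sigma]
          apply sum_congr rfl
          intro g _
          rw [card_sigma]
          apply sum_congr rfl
          intro a _
          rw [card_product, sq]
  have hGr : (0 : ℝ) < G := by exact_mod_cast hG
  have h2 : (((Y.powersetCard 3).filter (fun A => ¬ Good G A)).card : ℝ) ≤
      ∑ g ∈ Ioc G M, (Y.card : ℝ) * ((M : ℝ) ^ 2 * ((g : ℝ) ^ 2)⁻¹) := by
    calc (((Y.powersetCard 3).filter (fun A => ¬ Good G A)).card : ℝ) ≤
        ∑ g ∈ Ioc G M, ∑ a ∈ Y, ((Dv Y g a).card : ℝ) ^ 2 := by exact_mod_cast h1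
      _ ≤ ∑ g ∈ Ioc G M, ∑ a ∈ Y, ((M : ℝ) ^ 2 * ((g : ℝ) ^ 2)⁻¹) := by
          apply sum_le_sum
          intro g hg
          apply sum_le_sum
          intro a ha
          have hg0 : 0 < g := by
            rw [mem_Ioc] at hg; omega
          have h3 := count_mult Y M hY a ha g hg0
          calc ((Dv Y g a).card : ℝ) ^ 2 ≤ ((M : ℝ) / g) ^ 2 :=
                pow_le_pow_left₀ (by positivity) h3 2
            _ = (M : ℝ) ^ 2 * ((g : ℝ) ^ 2)⁻¹ := by rw [div_pow, div_eq_mul_inv]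
      _ = _ := by
          apply sum_congr rfl
          intro g _
          rw [sum_const, nsmul_eq_mul]
  refine h2.trans ?_
  rw [← mul_sum, ← mul_sum]
  rcases le_or_gt G M with hGM | hGM
  · have h3 := sum_Ioc_inv_sq_le_sub (α := ℝ) hG.ne' hGM
    have h4 : ∑ i ∈ Ioc G M, ((i : ℝ) ^ 2)⁻¹ ≤ (G : ℝ)⁻¹ := by
      refine h3.trans ?_
      have : (0 : ℝ) ≤ (M : ℝ)⁻¹ := by positivity
      linarith
    calc (Y.card : ℝ) * ((M : ℝ) ^ 2 * ∑ i ∈ Ioc G M, ((i : ℝ) ^ 2)⁻¹) ≤
        (Y.card : ℝ) * ((M : ℝ) ^ 2 * (G : ℝ)⁻¹) := by gcongr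
      _ = _ := by ring
  · rw [Ioc_eq_empty (by omega), sum_empty]
    simp only [mul_zero]
    positivity

lemma ratio (G : ℕ) (A B : Finset ℤ) (hA : Good G A) (hB : Good G B) (hA2 : 1 < A.card)
    (l t : ℝ) (hl : 0 < l)
    (h : (A.image (fun z : ℤ => (z : ℝ))).image (fun x => l * x + t) =
      B.image (fun z : ℤ => (z : ℝ))) :
    ∃ p q : ℕ, 1 ≤ p ∧ p ≤ G ∧ 1 ≤ q ∧ q ≤ G ∧ l = p / q := by
  have hf : ∀ x ∈ A, ∃ x' ∈ B, (x' : ℝ) = l * x + t := by
    intro x hx
    have : l * (x : ℝ) + t ∈ B.image (fun z : ℤ => (z : ℝ)) := by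
      rw [← h]
      exact mem_image_of_mem (fun x => l * x + t) (mem_image_of_mem (fun z : ℤ => (z : ℝ)) hx)
    rw [mem_image] at this
    exact this
  have hs : ∀ x' ∈ B, ∃ x ∈ A, (x' : ℝ) = l * x + t := by
    intro x' hx'
    have h1 : (x' : ℝ) ∈ (A.image (fun z : ℤ => (z : ℝ))).image (fun x => l * x + t) := by
      rw [h]
      exact mem_image_of_mem (fun z : ℤ => (z : ℝ)) hx'
    rw [mem_image] at h1
    obtain ⟨y, hy, hy'⟩ := h1
    rw [mem_image] at hy
    obtain ⟨z, hz, rfl⟩ := hy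
    exact ⟨z, hz, hy'.symm⟩
  obtain ⟨x, hx, y, hy, hne⟩ := one_lt_card.1 hA2
  wlog hxy : x < y generalizing x y
  · exact this y hy x hx hne.symm (lt_of_le_of_ne (not_lt.1 hxy) hne.symm)
  obtain ⟨x', hx', ex⟩ := hf x hx
  obtain ⟨y', hy', ey⟩ := hf y hy
  have hd : (0 : ℝ) < (y : ℝ) - x := by
    have : (x : ℝ) < y := by exact_mod_cast hxy
    linarith
  set q : ℚ := ((y' - x' : ℤ) : ℚ) / ((y - x : ℤ) : ℚ) with hq
  have hlq : l = (q : ℝ) := by
    rw [hq]
    push_cast
    rw [eq_div_iff hd.ne', ex, ey]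
    ring
  have hq0 : 0 < q := by
    have : (0 : ℝ) < (q : ℝ) := by rw [← hlq]; exact hl
    exact_mod_cast this
  have hnum : 0 < q.num := Rat.num_pos.2 hq0
  have hden : 0 < q.den := q.den_pos
  have key : ∀ u v u' v' : ℤ, (u' : ℝ) = l * u + t → (v' : ℝ) = l * v + t →
      q.num * (u - v) = (u' - v') * q.den := by
    intro u v u' v' hu hv
    have h1 : ((u' - v' : ℤ) : ℚ) = q * ((u - v : ℤ) : ℚ) := by
      have h2 : (((u' - v' : ℤ) : ℚ) : ℝ) = ((q * ((u - v : ℤ) : ℚ) : ℚ) : ℝ) := by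
        push_cast
        rw [hu, hv, ← hlq]
        ring
      exact_mod_cast h2
    have h3 : q * (q.den : ℚ) = q.num := Rat.mul_den_eq_num q
    have h4 : ((q.num * (u - v) : ℤ) : ℚ) = (((u' - v') * q.den : ℤ) : ℚ) := by
      push_cast at h1 ⊢
      rw [h1, ← h3]
      ring
    exact_mod_cast h4
  have hco : IsCoprime q.num (q.den : ℤ) := by
    rw [Int.isCoprime_iff_gcd_eq_one]
    exact q.reduced
  refine ⟨q.num.toNat, q.den, ?_, ?_, hden, ?_, ?_⟩
  · omega
  · apply hB
    intro u' hu' v' hv'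
    obtain ⟨u, hu, eu⟩ := hs u' hu'
    obtain ⟨v, hv, ev⟩ := hs v' hv'
    have h1 := key u v u' v' eu ev
    have h2 : q.num ∣ (u' - v') * q.den := ⟨u - v, h1.symm⟩
    have h3 : ((q.num.toNat : ℕ) : ℤ) = q.num := Int.toNat_of_nonneg hnum.le
    rw [h3]
    exact hco.dvd_of_dvd_mul_right h2
  · apply hA
    intro u hu v hv
    obtain ⟨u', hu', eu⟩ := hf u hu
    obtain ⟨v', hv', ev⟩ := hf v hv
    have h1 := key u v u' v' eu ev
    have h2 : (q.den : ℤ) ∣ q.num * (u - v) := ⟨u' - v', by rw [h1]; ring⟩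
    exact hco.symm.dvd_of_dvd_mul_left h2
  · rw [hlq]
    have h3 : ((q.num.toNat : ℕ) : ℤ) = q.num := Int.toNat_of_nonneg hnum.le
    have h4 : ((q.num.toNat : ℕ) : ℝ) = (q.num : ℝ) := by exact_mod_cast h3
    rw [h4]
    exact_mod_cast (Rat.num_div_den q).symm

/-- cast of an integer set -/
noncomputable def toR (A : Finset ℤ) : Finset ℝ := A.image (fun z : ℤ => (z : ℝ))

lemma toR_inj : Function.Injective toR := by
  intro A B h
  apply image_injective (f := fun z : ℤ => (z : ℝ)) Int.cast_injective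
  exact h

lemma card_toR (A : Finset ℤ) : (toR A).card = A.card :=
  card_image_of_injective _ Int.cast_injective

lemma log_bound (n M : ℝ) (hn : 0 < n) (hM : n ≤ M) (G : ℕ) (hG1 : 1 ≤ G)
    (hG : (G : ℝ) ≤ 101 * (M / n) ^ 2) :
    (1 + 32 * (1 + Real.log (4 * G : ℕ))) / 6 ≤ 59 * Real.log (2 * M / n) := by
  have hw : 1 ≤ M / n := by rw [le_div_iff₀ hn]; linarith
  have hpos : 0 < 2 * M / n := by rw [mul_div_assoc]; linarith
  have hl2 : (1 / 2 : ℝ) ≤ Real.log 2 := by
    have := Real.log_two_gt_d9; linarith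
  have hL : Real.log 2 ≤ Real.log (2 * M / n) := by
    apply Real.log_le_log (by norm_num)
    rw [mul_div_assoc]
    linarith
  have h1 : Real.log (4 * G : ℕ) ≤ 9 * Real.log (2 * M / n) := by
    have hGr : (1 : ℝ) ≤ G := by exact_mod_cast hG1
    have h2 : ((4 * G : ℕ) : ℝ) ≤ 2 ^ 7 * (2 * M / n) ^ 2 := by
      push_cast
      have e : (2 * M / n) = 2 * (M / n) := by ring
      rw [e]
      nlinarith [sq_nonneg (M / n)]
    calc Real.log (4 * G : ℕ) ≤ Real.log (2 ^ 7 * (2 * M / n) ^ 2) := by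
          apply Real.log_le_log _ h2
          push_cast
          linarith
      _ = 7 * Real.log 2 + 2 * Real.log (2 * M / n) := by
          rw [Real.log_mul (by norm_num) (pow_pos hpos 2).ne', Real.log_pow, Real.log_pow]
          norm_num
      _ ≤ _ := by linarith
  linarith

lemma ints (Y : Finset ℤ) (M : ℕ) (hY : ∀ y ∈ Y, 1 ≤ y ∧ y ≤ M) (hn : 3 ≤ Y.card) :
    1 / 94400 * (Y.card : ℝ) ^ 2 / Real.log (2 * M / Y.card) ≤ classCount 3 (toR Y) := by
  classical
  set n : ℝ := (Y.card : ℝ) with hndef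
  have hn3 : (3 : ℝ) ≤ n := by rw [hndef]; exact_mod_cast hn
  have hn0 : 0 < n := by linarith
  have hYM : Y.card ≤ M := by
    have h1 : Y ⊆ Icc (1 : ℤ) M := fun y hy => mem_Icc.2 (hY y hy)
    have h2 := card_le_card h1
    rwa [Int.card_Icc, add_sub_cancel_right, Int.toNat_natCast] at h2
  have hM : n ≤ (M : ℝ) := by rw [hndef]; exact_mod_cast hYM
  set w : ℝ := (M : ℝ) / n with hw
  have hw1 : 1 ≤ w := by rw [hw, le_div_iff₀ hn0]; linarith
  set G : ℕ := ⌈100 * w ^ 2⌉₊ with hGdef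
  have hG100 : 100 * w ^ 2 ≤ (G : ℝ) := Nat.le_ceil _
  have hG101 : (G : ℝ) ≤ 101 * w ^ 2 := by
    have := (Nat.ceil_lt_add_one (by positivity : (0 : ℝ) ≤ 100 * w ^ 2)).le
    rw [← hGdef] at this
    nlinarith
  have hG1 : 1 ≤ G := by
    have : (0 : ℝ) < G := by nlinarith
    exact_mod_cast this
  set S' := (Y.powersetCard 3).filter (fun A => Good G A) with hS'
  have hcount : n ^ 3 / 40 ≤ (S'.card : ℝ) := by
    have h1 : ((Y.powersetCard 3).card : ℝ) = (S'.card : ℝ) +
        (((Y.powersetCard 3).filter (fun A => ¬ Good G A)).card : ℝ) := by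
      rw [hS']
      exact_mod_cast (card_filter_add_card_filter_not (s := Y.powersetCard 3)
        (fun A => Good G A)).symm
    have h2 := bad_count Y M G hG1 hY
    have h3 : n * (M : ℝ) ^ 2 / G ≤ n ^ 3 / 100 := by
      rw [div_le_iff₀ (by linarith [(by exact_mod_cast hG1 : (1 : ℝ) ≤ (G : ℝ))])]
      have e : (M : ℝ) = w * n := by rw [hw]; field_simp
      rw [e]
      have h4 : 0 < n ^ 3 := pow_pos hn0 3
      have h5 : n ^ 3 * (100 * w ^ 2) ≤ n ^ 3 * (G : ℝ) := mul_le_mul_of_nonneg_left hG100 h4.le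
      linarith
    have h4 : n ^ 3 / 27 ≤ ((Y.powersetCard 3).card : ℝ) := by
      rw [card_powersetCard]
      have h5 := Nat.descFactorial_eq_factorial_mul_choose Y.card 3
      obtain ⟨c, hc⟩ : ∃ c, Y.card = c + 3 := ⟨Y.card - 3, by omega⟩
      rw [hc] at h5 ⊢
      have h6 : (c + 3).choose 3 * 6 = (c + 3) * (c + 2) * (c + 1) := by
        simp only [Nat.descFactorial] at h5
        have h3 : (3 : ℕ).factorial = 6 := rfl
        rw [h3] at h5
        have e1 : c + 3 - 2 = c + 1 := by omega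
        have e2 : c + 3 - 1 = c + 2 := by omega
        have e3 : c + 3 - 0 = c + 3 := by omega
        rw [e1, e2, e3] at h5
        linarith
      have h7 : (((c + 3).choose 3 : ℕ) : ℝ) * 6 = ((c : ℝ) + 3) * (c + 2) * (c + 1) := by
        exact_mod_cast h6
      have h8 : n = (c : ℝ) + 3 := by rw [hndef, hc]; push_cast; ring
      rw [h8]
      have hc0 : (0 : ℝ) ≤ c := Nat.cast_nonneg c
      nlinarith [h7, mul_nonneg hc0 hc0, mul_nonneg hc0 (mul_nonneg hc0 hc0)]
    have h5 : 0 < n ^ 3 := pow_pos hn0 3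
    linarith
  set S : Finset (Finset ℝ) := S'.image toR with hS
  have hScard : S.card = S'.card := card_image_of_injective _ toR_inj
  have hSsub : S ⊆ (toR Y).powersetCard 3 := by
    intro A hA
    rw [hS, mem_image] at hA
    obtain ⟨A', hA', rfl⟩ := hA
    rw [hS', mem_filter, mem_powersetCard] at hA'
    rw [mem_powersetCard, card_toR]
    exact ⟨image_subset_image hA'.1.1, hA'.1.2⟩
  set Λ : Finset ℝ := ((Icc 1 G) ×ˢ (Icc 1 G)).image (fun pq : ℕ × ℕ => (pq.1 : ℝ) / pq.2)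
    with hΛ
  have hΛc : Λ.card ≤ G ^ 2 := by
    calc Λ.card ≤ ((Icc 1 G) ×ˢ (Icc 1 G)).card := card_image_le
      _ = G ^ 2 := by rw [card_product, Nat.card_Icc, sq]; simp
  have hΛr : ∀ A ∈ S, ∀ B ∈ S, ∀ l t : ℝ, 0 < l → A.image (fun x => l * x + t) = B → l ∈ Λ := by
    intro A hA B hB l t hl h
    rw [hS, mem_image] at hA hB
    obtain ⟨A', hA', rfl⟩ := hA
    obtain ⟨B', hB', rfl⟩ := hB
    rw [hS', mem_filter, mem_powersetCard] at hA' hB'
    obtain ⟨p, q, hp1, hpG, hq1, hqG, he⟩ := ratio G A' B' hA'.2 hB'.2 (by omega) l t hl h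
    rw [hΛ, mem_image]
    refine ⟨(p, q), ?_, he.symm⟩
    rw [mem_product, mem_Icc, mem_Icc]
    exact ⟨⟨hp1, hpG⟩, hq1, hqG⟩
  have hmain := few_slopes (toR Y) S hSsub Λ G hΛc hΛr
  rw [card_toR, hScard] at hmain
  rw [← hndef] at hmain
  have hlog := log_bound n M hn0 hM G hG1 (by rw [← hw]; exact hG101)
  set L := Real.log (2 * M / n) with hL
  have hLpos : 0 < L := by
    apply Real.log_pos
    rw [mul_div_assoc, ← hw]
    linarith
  set N : ℝ := (classCount 3 (toR Y) : ℝ) with hN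
  have hN0 : 0 ≤ N := by positivity
  have h1 : (n ^ 3 / 40) ^ 2 ≤ N * (n ^ 4 * (59 * L)) := by
    calc (n ^ 3 / 40) ^ 2 ≤ (S'.card : ℝ) ^ 2 := pow_le_pow_left₀ (by positivity) hcount 2
      _ ≤ N * (n ^ 4 * (1 + 32 * (1 + Real.log (4 * G : ℕ))) / 6) := hmain
      _ = N * (n ^ 4 * ((1 + 32 * (1 + Real.log (4 * G : ℕ))) / 6)) := by ring
      _ ≤ _ := by gcongr
  rw [div_le_iff₀ hLpos]
  have hn4 : 0 < n ^ 4 := by positivity
  have h2 : n ^ 4 * (n ^ 2 / 1600) ≤ n ^ 4 * (N * (59 * L)) := by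
    calc n ^ 4 * (n ^ 2 / 1600) = (n ^ 3 / 40) ^ 2 := by ring
      _ ≤ _ := h1
      _ = _ := by ring
  have h3 := le_of_mul_le_mul_left h2 hn4
  linarith

lemma classCount_affine (k : ℕ) (X : Finset ℝ) (l t : ℝ) (hl : 0 < l) :
    classCount k (X.image (fun x => l * x + t)) = classCount k X := by
  have hinj : Function.Injective (fun x : ℝ => l * x + t) := by
    intro x y h
    simp only at h
    have : l * x = l * y := by linarith
    exact mul_left_cancel₀ hl.ne' this
  unfold classCount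
  congr 1
  ext c
  constructor
  · rintro ⟨A, ⟨hA, hAk⟩, rfl⟩
    obtain ⟨A', hA', rfl⟩ := subset_image_iff.1 hA
    refine ⟨A', ⟨hA', ?_⟩, ?_⟩
    · rwa [card_image_of_injective _ hinj] at hAk
    · exact Quotient.sound (s := homothetySetoid)
        (show homothetySetoid.r A' _ from ⟨l, t, hl, rfl⟩)
  · rintro ⟨A, ⟨hA, hAk⟩, rfl⟩
    refine ⟨A.image (fun x => l * x + t), ⟨image_subset_image hA, ?_⟩, ?_⟩
    · rwa [card_image_of_injective _ hinj]
    · exact (Quotient.sound (s := homothetySetoid)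
        (show homothetySetoid.r A _ from ⟨l, t, hl, rfl⟩)).symm

/-- If `X` is a set of `n ≥ 3` reals contained in an arithmetic progression with `M` terms, then
the triples of `X` form at least `c n ^ 2 / log (2 M / n)` homothety classes. -/
theorem result : ∃ c : ℝ, 0 < c ∧ ∀ (X : Finset ℝ) (a d : ℝ) (M : ℕ), 0 < d → 3 ≤ X.card →
    (∀ x ∈ X, ∃ j : ℕ, j < M ∧ x = a + d * j) →
    c * (X.card : ℝ) ^ 2 / Real.log (2 * M / X.card) ≤ classCount 3 X := by
  classical
  refine ⟨1 / 94400, by norm_num, ?_⟩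
  intro X a d M hd hX hsub
  set Y : Finset ℤ := (Icc (1 : ℤ) M).filter (fun y => d * (y : ℝ) + (a - d) ∈ X) with hY
  have hXY : (toR Y).image (fun z => d * z + (a - d)) = X := by
    ext x
    rw [mem_image]
    constructor
    · rintro ⟨z, hz, rfl⟩
      rw [toR, mem_image] at hz
      obtain ⟨y, hy, rfl⟩ := hz
      rw [hY, mem_filter] at hy
      exact hy.2
    · intro hx
      obtain ⟨j, hj, e⟩ := hsub x hx
      have e2 : d * (((j : ℤ) + 1 : ℤ) : ℝ) + (a - d) = x := by
        rw [e]; push_cast; ring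
      refine ⟨(((j : ℤ) + 1 : ℤ) : ℝ), ?_, e2⟩
      rw [toR, mem_image]
      refine ⟨(j : ℤ) + 1, ?_, rfl⟩
      rw [hY, mem_filter, mem_Icc]
      refine ⟨⟨by omega, by omega⟩, ?_⟩
      rw [e2]
      exact hx
  have hinj : Function.Injective (fun z : ℝ => d * z + (a - d)) := by
    intro x y h
    simp only at h
    have : d * x = d * y := by linarith
    exact mul_left_cancel₀ hd.ne' this
  have hcard : Y.card = X.card := by
    rw [← hXY, card_image_of_injective _ hinj, card_toR]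
  have h1 := ints Y M (fun y hy => by
    rw [hY, mem_filter, mem_Icc] at hy
    exact hy.1) (by omega)
  have h2 := classCount_affine 3 (toR Y) d (a - d) hd
  rw [hXY] at h2
  rw [hcard, ← h2] at h1
  exact h1

end Pool.Agent.Results.MP_9322ca_co.InProgression
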