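import Mathlib

set_option autoImplicit false

namespace Pool.Agent.Results.MP_9322ca_co.ThetaKGeFour

open Finset

/-- The homothety relation on finite sets of reals: `A ~ B` iff `h(A) = B` for some map
`h(x) = l * x + t` with `l > 0`. -/
def homothetySetoid : Setoid (Finset ℝ) where
  r A B := ∃ l t : ℝ, 0 < l ∧ A.image (fun x => l * x + t) = B
  iseqv := by
    refine ⟨fun A => ⟨1, 0, one_pos, by simp⟩, ?_, ?_⟩
    · rintro A B ⟨l, t, hl, rfl⟩
      refine ⟨l⁻¹, -(l⁻¹ * t), inv_pos.2 hl, ?_⟩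
      rw [image_image]
      have : ((fun x => l⁻¹ * x + -(l⁻¹ * t)) ∘ fun x => l * x + t) = id := by
        funext x
        simp only [Function.comp, id]
        field_simp
        ring
      rw [this, image_id]
    · rintro A B C ⟨l, t, hl, rfl⟩ ⟨m, s, hm, rfl⟩
      refine ⟨m * l, m * t + s, mul_pos hm hl, ?_⟩
      rw [image_image]
      congr 1
      funext x
      simp only [Function.comp]
      ring

/-- `classCount k X` is the number of homothety classes that meet the family of `k`-element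
subsets of `X`. -/
noncomputable def classCount (k : ℕ) (X : Finset ℝ) : ℕ :=
  Set.ncard ((fun A : Finset ℝ => Quotient.mk homothetySetoid A) ''
    {A : Finset ℝ | A ⊆ X ∧ A.card = k})

/-- `minClasses k n` is the minimum of `classCount k X` over all `n`-element sets `X` of reals. -/
noncomputable def minClasses (k n : ℕ) : ℕ :=
  sInf {c : ℕ | ∃ X : Finset ℝ, X.card = n ∧ classCount k X = c}

/-! ### Ranks -/

/-- rank of a real in `X` -/
noncomputable def rk (X : Finset ℝ) (x : ℝ) : ℕ := (X.filter (· < x)).card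

lemma rk_lt {X : Finset ℝ} {x y : ℝ} (hx : x ∈ X) (h : x < y) : rk X x < rk X y := by
  apply card_lt_card
  refine (ssubset_iff_of_subset ?_).2 ⟨x, by simp [hx, h], by simp⟩
  intro z hz
  simp only [mem_filter] at hz ⊢
  exact ⟨hz.1, hz.2.trans h⟩

lemma rk_lt_card {X : Finset ℝ} {x : ℝ} (hx : x ∈ X) : rk X x < X.card := by
  apply card_lt_card
  exact (ssubset_iff_of_subset (filter_subset _ _)).2 ⟨x, hx, by simp⟩

lemma rk_injOn (X : Finset ℝ) : Set.InjOn (rk X) X := by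
  intro x hx y hy h
  rcases lt_trichotomy x y with hlt | rfl | hlt
  · exact absurd h (rk_lt hx hlt).ne
  · rfl
  · exact absurd h (rk_lt hy hlt).ne'

/-! ### The weight sum -/

lemma sum_inv_cube (g N : ℕ) (hg : 1 ≤ g) :
    ∑ j ∈ range N, (1 : ℝ) / ((g + (j + 1) : ℕ) : ℝ) ^ 3 ≤
      1 / (2 * g * (g + 1)) - 1 / (2 * (g + N) * (g + N + 1)) := by
  have hg' : (1 : ℝ) ≤ g := by exact_mod_cast hg
  induction N with
  | zero => simp
  | succ N ih =>
    rw [sum_range_succ]
    push_cast at ih ⊢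
    have key : (1 : ℝ) / ((g : ℝ) + (N + 1)) ^ 3 ≤
        1 / (2 * (g + N) * (g + N + 1)) - 1 / (2 * (g + (N + 1)) * (g + (N + 1) + 1)) := by
      have h0 : (0 : ℝ) < (g : ℝ) + N := by positivity
      set m : ℝ := (g : ℝ) + N with hm
      have e1 : (g : ℝ) + (N + 1) = m + 1 := by rw [hm]; ring
      rw [e1]
      have : 1 / (2 * m * (m + 1)) - 1 / (2 * (m + 1) * (m + 1 + 1)) =
          1 / (m * (m + 1) * (m + 2)) := by
        field_simp
        ring
      rw [this]
      apply one_div_le_one_div_of_le (by positivity)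
      nlinarith
    linarith

lemma sum_inv (N : ℕ) :
    ∑ i ∈ range N, (1 : ℝ) / (2 * (i + 1) * ((i + 1) + 1)) ≤ 1 / 2 := by
  have : ∑ i ∈ range N, (1 : ℝ) / (2 * (i + 1) * ((i + 1) + 1)) = 1 / 2 - 1 / (2 * (N + 1)) := by
    induction N with
    | zero => simp
    | succ N ih =>
      rw [sum_range_succ, ih]
      push_cast
      field_simp
      ring
  rw [this]
  have : (0 : ℝ) ≤ 1 / (2 * ((N : ℝ) + 1)) := by positivity
  linarith

/-- The double sum of the weights. -/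
lemma double_sum (N : ℕ) :
    ∑ i ∈ range N, ∑ j ∈ range N, (1 : ℝ) / (((i + 1) + (j + 1) : ℕ) : ℝ) ^ 3 ≤ 1 / 2 := by
  refine le_trans (sum_le_sum fun i _ => ?_) (sum_inv N)
  refine (sum_inv_cube (i + 1) N (by omega)).trans ?_
  push_cast
  have : (0 : ℝ) ≤ 1 / (2 * ((i : ℝ) + 1 + N) * (i + 1 + N + 1)) := by positivity
  linarith

/-- for a nonnegative function `F`, summing `F (rank gap - 1)` over `y > x` -/
lemma sum_gap (X : Finset ℝ) (x : ℝ) (hx : x ∈ X) (F : ℕ → ℝ) (hF : ∀ i, 0 ≤ F i) :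
    ∑ y ∈ X.filter (x < ·), F (rk X y - rk X x) ≤ ∑ i ∈ range X.card, F (i + 1) := by
  have hinj : Set.InjOn (fun y => rk X y - rk X x - 1) (X.filter (x < ·) : Finset ℝ) := by
    intro y hy z hz h
    simp only [coe_filter, Set.mem_ofPred_eq] at hy hz
    have h1 := rk_lt hx hy.2
    have h2 := rk_lt hx hz.2
    simp only at h
    apply rk_injOn X hy.1 hz.1
    omega
  calc ∑ y ∈ X.filter (x < ·), F (rk X y - rk X x)
      = ∑ y ∈ X.filter (x < ·), F ((rk X y - rk X x - 1) + 1) := by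
        apply sum_congr rfl
        intro y hy
        simp only [mem_filter] at hy
        have h1 := rk_lt hx hy.2
        congr 1
        omega
    _ = ∑ i ∈ (X.filter (x < ·)).image (fun y => rk X y - rk X x - 1), F (i + 1) := by
        rw [sum_image hinj]
    _ ≤ ∑ i ∈ range X.card, F (i + 1) := by
        apply sum_le_sum_of_subset_of_nonneg
        · intro i hi
          simp only [mem_image, mem_filter] at hi
          obtain ⟨y, hy, rfl⟩ := hi
          have := rk_lt_card hy.1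
          simp only [mem_range]
          omega
        · intro i _ _
          exact hF _

/-- ordered pairs `x < y` in `X` -/
noncomputable def prs (X : Finset ℝ) : Finset (ℝ × ℝ) := (X ×ˢ X).filter (fun p => p.1 < p.2)

lemma mem_prs {X : Finset ℝ} {p : ℝ × ℝ} : p ∈ prs X ↔ p.1 ∈ X ∧ p.2 ∈ X ∧ p.1 < p.2 := by
  simp [prs, and_assoc]

/-- the weight of a pair of pairs -/
noncomputable def wt (X : Finset ℝ) (q : (ℝ × ℝ) × (ℝ × ℝ)) : ℝ :=
  1 / (((rk X q.1.2 - rk X q.1.1) + (rk X q.2.2 - rk X q.2.1) : ℕ) : ℝ) ^ 3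

lemma wt_nonneg (X : Finset ℝ) (q : (ℝ × ℝ) × (ℝ × ℝ)) : 0 ≤ wt X q := by
  unfold wt; positivity

lemma sum_prs (X : Finset ℝ) (G : ℕ → ℝ) (hG : ∀ i, 0 ≤ G i) :
    ∑ p ∈ prs X, G (rk X p.2 - rk X p.1) ≤ X.card * ∑ i ∈ range X.card, G (i + 1) := by
  have : ∑ p ∈ prs X, G (rk X p.2 - rk X p.1) =
      ∑ x ∈ X, ∑ y ∈ X.filter (x < ·), G (rk X y - rk X x) := by
    unfold prs
    rw [sum_filter, sum_product]
    apply sum_congr rfl
    intro x _
    rw [sum_filter]
  rw [this]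
  calc ∑ x ∈ X, ∑ y ∈ X.filter (x < ·), G (rk X y - rk X x)
      ≤ ∑ x ∈ X, ∑ i ∈ range X.card, G (i + 1) :=
        sum_le_sum fun x hx => sum_gap X x hx G hG
    _ = X.card * ∑ i ∈ range X.card, G (i + 1) := by
        rw [sum_const, nsmul_eq_mul]

lemma sum_wt (X : Finset ℝ) :
    ∑ q ∈ (prs X) ×ˢ (prs X), wt X q ≤ (X.card : ℝ) ^ 2 / 2 := by
  rw [sum_product]
  unfold wt
  simp only
  have h1 : ∀ p ∈ prs X, ∑ q ∈ prs X,
      (1 : ℝ) / (((rk X p.2 - rk X p.1) + (rk X q.2 - rk X q.1) : ℕ) : ℝ) ^ 3 ≤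
      X.card * ∑ j ∈ range X.card,
        (1 : ℝ) / (((rk X p.2 - rk X p.1) + (j + 1) : ℕ) : ℝ) ^ 3 := by
    intro p _
    exact sum_prs X (fun g => (1 : ℝ) / (((rk X p.2 - rk X p.1) + g : ℕ) : ℝ) ^ 3)
      (fun i => by positivity)
  refine (sum_le_sum h1).trans ?_
  rw [← mul_sum]
  have h2 := sum_prs X (fun g => ∑ j ∈ range X.card,
        (1 : ℝ) / ((g + (j + 1) : ℕ) : ℝ) ^ 3) (fun i => by positivity)
  have h3 := double_sum X.card
  have hc : (0 : ℝ) ≤ X.card := by positivity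
  calc (X.card : ℝ) * ∑ p ∈ prs X, ∑ j ∈ range X.card,
        (1 : ℝ) / (((rk X p.2 - rk X p.1) + (j + 1) : ℕ) : ℝ) ^ 3
      ≤ X.card * (X.card * ∑ i ∈ range X.card, ∑ j ∈ range X.card,
        (1 : ℝ) / (((i + 1) + (j + 1) : ℕ) : ℝ) ^ 3) := by
        exact mul_le_mul_of_nonneg_left h2 hc
    _ ≤ X.card * (X.card * (1 / 2)) := by gcongr
    _ = (X.card : ℝ) ^ 2 / 2 := by ring

/-! ### Convexity -/

lemma tangent (g s : ℝ) (hg : 0 < g) (hs : 0 < s) : 4 / s ^ 3 - 3 * g / s ^ 4 ≤ 1 / g ^ 3 := by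
  rw [div_sub_div _ _ (by positivity) (by positivity), div_le_div_iff₀ (by positivity) (by positivity)]
  have : 0 ≤ s ^ 3 * ((s - g) ^ 2 * (s ^ 2 + 2 * s * g + 3 * g ^ 2)) := by positivity
  nlinarith [this]

lemma convex_sum (m : ℕ) (g : ℕ → ℝ) (hg : ∀ i ∈ range m, 0 < g i) (G : ℝ) (hG : 0 < G)
    (hsum : ∑ i ∈ range m, g i ≤ G) :
    (m : ℝ) ^ 4 ≤ G ^ 3 * ∑ i ∈ range m, 1 / (g i) ^ 3 := by
  rcases Nat.eq_zero_or_pos m with rfl | hm
  · simp
  have hm' : (0 : ℝ) < m := by exact_mod_cast hm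
  set s : ℝ := G / m with hs
  have hs0 : 0 < s := by positivity
  have h1 : ∑ i ∈ range m, (4 / s ^ 3 - 3 * g i / s ^ 4) ≤ ∑ i ∈ range m, 1 / (g i) ^ 3 :=
    sum_le_sum fun i hi => tangent (g i) s (hg i hi) hs0
  have h2 : ∑ i ∈ range m, (4 / s ^ 3 - 3 * g i / s ^ 4) =
      m * (4 / s ^ 3) - 3 / s ^ 4 * ∑ i ∈ range m, g i := by
    rw [sum_sub_distrib, sum_const, card_range, nsmul_eq_mul, mul_sum]
    congr 1
    apply sum_congr rfl
    intro i _
    ring
  have h3 : 3 / s ^ 4 * ∑ i ∈ range m, g i ≤ 3 / s ^ 4 * G := by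
    apply mul_le_mul_of_nonneg_left hsum (by positivity)
  have h4 : m * (4 / s ^ 3) - 3 / s ^ 4 * G = (m : ℝ) ^ 4 / G ^ 3 := by
    rw [hs]
    field_simp
    ring
  have h5 : (m : ℝ) ^ 4 / G ^ 3 ≤ ∑ i ∈ range m, 1 / (g i) ^ 3 := by
    rw [← h4]; linarith
  rw [div_le_iff₀ (by positivity)] at h5
  linarith

/-! ### Homotheties and their partial domains in `X` -/

/-- the points of `X` mapped into `X` by `x ↦ φ.1 * x + φ.2` -/
noncomputable def Bs (X : Finset ℝ) (φ : ℝ × ℝ) : Finset ℝ :=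
  X.filter (fun x => φ.1 * x + φ.2 ∈ X)

lemma mem_Bs {X : Finset ℝ} {φ : ℝ × ℝ} {x : ℝ} : x ∈ Bs X φ ↔ x ∈ X ∧ φ.1 * x + φ.2 ∈ X := by
  simp [Bs]

/-- the affine map sending the pair `q.1` to the pair `q.2` -/
noncomputable def mapOf (q : (ℝ × ℝ) × (ℝ × ℝ)) : ℝ × ℝ :=
  ((q.2.2 - q.2.1) / (q.1.2 - q.1.1),
    q.2.1 - (q.2.2 - q.2.1) / (q.1.2 - q.1.1) * q.1.1)

lemma mapOf_eq {x y x' y' l t : ℝ} (hxy : x < y) (h1 : l * x + t = x') (h2 : l * y + t = y') :
    mapOf ((x, y), (x', y')) = (l, t) := by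
  have h : y - x ≠ 0 := by linarith [sub_pos.2 hxy]
  have hl : (y' - x') / (y - x) = l := by
    rw [div_eq_iff h, ← h1, ← h2]; ring
  unfold mapOf
  simp only
  rw [hl]
  ext
  · rfl
  · simp only; linarith

/-- all maps that send some increasing pair of `X` to an increasing pair of `X` -/
noncomputable def maps (X : Finset ℝ) : Finset (ℝ × ℝ) := ((prs X) ×ˢ (prs X)).image mapOf

lemma rich (X : Finset ℝ) (φ : ℝ × ℝ) (hφ : 0 < φ.1) :
    (((Bs X φ).card - 1 : ℕ) : ℝ) ^ 4 ≤ (2 * X.card : ℝ) ^ 3 *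
      ∑ q ∈ ((prs X) ×ˢ (prs X)).filter (fun q => mapOf q = φ), wt X q := by
  set B := Bs X φ with hB
  set m := B.card - 1 with hm
  rcases Nat.eq_zero_or_pos m with h0 | hmpos
  · rw [h0]
    have : 0 ≤ ∑ q ∈ ((prs X) ×ˢ (prs X)).filter (fun q => mapOf q = φ), wt X q :=
      sum_nonneg fun q _ => wt_nonneg X q
    have h2 : (0 : ℝ) ≤ (2 * X.card : ℝ) ^ 3 := by positivity
    simpa using mul_nonneg h2 this
  have hX : 0 < X.card := by
    have h1 : B.card ≤ X.card := card_le_card (filter_subset _ _)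
    omega
  let β : ℕ → ℝ := fun i => if h : i < B.card then B.orderEmbOfFin rfl ⟨i, h⟩ else 0
  have hβmem : ∀ i, i < B.card → β i ∈ B := by
    intro i hi
    simp only [β, dif_pos hi]
    exact orderEmbOfFin_mem _ _ _
  have hβlt : ∀ i j, i < j → j < B.card → β i < β j := by
    intro i j hij hj
    have hi : i < B.card := by omega
    simp only [β, dif_pos hi, dif_pos hj]
    exact (B.orderEmbOfFin rfl).strictMono hij
  let f : ℝ → ℝ := fun x => φ.1 * x + φ.2
  have hf : ∀ x y, x < y → f x < f y := by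
    intro x y h
    simp only [f]
    nlinarith
  let Q : ℕ → (ℝ × ℝ) × (ℝ × ℝ) := fun i => ((β i, β (i + 1)), (f (β i), f (β (i + 1))))
  have hQmem : ∀ i ∈ range m, Q i ∈ ((prs X) ×ˢ (prs X)).filter (fun q => mapOf q = φ) := by
    intro i hi
    rw [mem_range] at hi
    have h1 := hβmem i (by omega)
    have h2 := hβmem (i + 1) (by omega)
    have h3 := hβlt i (i + 1) (by omega) (by omega)
    rw [hB, mem_Bs] at h1 h2
    rw [mem_filter, mem_product, mem_prs, mem_prs]
    refine ⟨⟨⟨h1.1, h2.1, h3⟩, ⟨h1.2, h2.2, hf _ _ h3⟩⟩, ?_⟩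
    exact mapOf_eq h3 rfl rfl
  have hQinj : Set.InjOn Q (range m : Finset ℕ) := by
    intro i hi j hj h
    simp only [coe_range, Set.mem_Iio] at hi hj
    have h1 : β i = β j := congrArg (fun q => q.1.1) h
    by_contra hne
    rcases lt_or_gt_of_ne hne with hlt | hlt
    · exact absurd h1 (hβlt i j hlt (by omega)).ne
    · exact absurd h1 (hβlt j i hlt (by omega)).ne'
  have hle : ∑ i ∈ range m, wt X (Q i) ≤
      ∑ q ∈ ((prs X) ×ˢ (prs X)).filter (fun q => mapOf q = φ), wt X q := by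
    rw [← sum_image (f := wt X) hQinj]
    apply sum_le_sum_of_subset_of_nonneg
    · intro q hq
      rw [mem_image] at hq
      obtain ⟨i, hi, rfl⟩ := hq
      exact hQmem i hi
    · intro q _ _
      exact wt_nonneg X q
  -- the gaps
  let g : ℕ → ℝ := fun i =>
    (((rk X (β (i + 1)) - rk X (β i)) + (rk X (f (β (i + 1))) - rk X (f (β i))) : ℕ) : ℝ)
  have hrk : ∀ i ∈ range m, rk X (β i) < rk X (β (i + 1)) ∧
      rk X (f (β i)) < rk X (f (β (i + 1))) := by
    intro i hi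
    rw [mem_range] at hi
    have h1 := hβmem i (by omega)
    have h3 := hβlt i (i + 1) (by omega) (by omega)
    rw [hB, mem_Bs] at h1
    exact ⟨rk_lt h1.1 h3, rk_lt h1.2 (hf _ _ h3)⟩
  have hgpos : ∀ i ∈ range m, 0 < g i := by
    intro i hi
    have := hrk i hi
    simp only [g]
    have h : 0 < (rk X (β (i + 1)) - rk X (β i)) + (rk X (f (β (i + 1))) - rk X (f (β i))) := by
      omega
    exact_mod_cast h
  have hgsum : ∑ i ∈ range m, g i ≤ 2 * X.card := by
    have h1 : ∑ i ∈ range m, g i = ∑ i ∈ range m,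
        (((rk X (β (i + 1)) : ℝ) + rk X (f (β (i + 1)))) - ((rk X (β i) : ℝ) + rk X (f (β i)))) := by
      apply sum_congr rfl
      intro i hi
      have := hrk i hi
      simp only [g]
      rw [Nat.cast_add, Nat.cast_sub this.1.le, Nat.cast_sub this.2.le]
      ring
    rw [h1, sum_range_sub (fun i => ((rk X (β i) : ℝ) + rk X (f (β i))))]
    have h2 := hβmem m (by omega)
    rw [hB, mem_Bs] at h2
    have h3 : (rk X (β m) : ℝ) ≤ X.card := by exact_mod_cast (rk_lt_card h2.1).le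
    have h4 : (rk X (f (β m)) : ℝ) ≤ X.card := by exact_mod_cast (rk_lt_card h2.2).le
    have h5 : (0 : ℝ) ≤ (rk X (β 0) : ℝ) + rk X (f (β 0)) := by positivity
    linarith
  have hconv := convex_sum m g hgpos (2 * X.card) (by positivity) hgsum
  refine hconv.trans ?_
  have hG : (0 : ℝ) ≤ (2 * X.card : ℝ) ^ 3 := by positivity
  exact mul_le_mul_of_nonneg_left hle hG

lemma maps_pos {X : Finset ℝ} {φ : ℝ × ℝ} (h : φ ∈ maps X) : 0 < φ.1 := by
  unfold maps at h
  rw [mem_image] at h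
  obtain ⟨q, hq, rfl⟩ := h
  rw [mem_product, mem_prs, mem_prs] at hq
  unfold mapOf
  simp only
  exact div_pos (sub_pos.2 hq.2.2.2) (sub_pos.2 hq.1.2.2)

lemma sum_rich (X : Finset ℝ) :
    ∑ φ ∈ maps X, (((Bs X φ).card - 1 : ℕ) : ℝ) ^ 4 ≤ 4 * (X.card : ℝ) ^ 5 := by
  have h1 : ∑ φ ∈ maps X, (((Bs X φ).card - 1 : ℕ) : ℝ) ^ 4 ≤
      ∑ φ ∈ maps X, (2 * X.card : ℝ) ^ 3 *
        ∑ q ∈ ((prs X) ×ˢ (prs X)).filter (fun q => mapOf q = φ), wt X q :=
    sum_le_sum fun φ hφ => rich X φ (maps_pos hφ)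
  have h0 : ∑ φ ∈ maps X, ∑ q ∈ ((prs X) ×ˢ (prs X)).filter (fun q => mapOf q = φ), wt X q =
      ∑ q ∈ (prs X) ×ˢ (prs X), wt X q :=
    sum_fiberwise_of_maps_to (t := maps X)
      (fun q hq => mem_image_of_mem mapOf hq) (fun q => wt X q)
  rw [← mul_sum, h0] at h1
  refine h1.trans ?_
  have h2 := sum_wt X
  have hG : (0 : ℝ) ≤ (2 * X.card : ℝ) ^ 3 := by positivity
  calc (2 * X.card : ℝ) ^ 3 * ∑ q ∈ (prs X) ×ˢ (prs X), wt X q
      ≤ (2 * X.card : ℝ) ^ 3 * ((X.card : ℝ) ^ 2 / 2) := mul_le_mul_of_nonneg_left h2 hG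
    _ = 4 * (X.card : ℝ) ^ 5 := by ring

/-! ### Counting homothetic pairs of `k`-subsets -/

open Classical in
/-- homothetic pairs of `k`-subsets of `X` -/
noncomputable def hpairs (k : ℕ) (X : Finset ℝ) : Finset (Finset ℝ × Finset ℝ) :=
  ((X.powersetCard k) ×ˢ (X.powersetCard k)).filter
    (fun p => Quotient.mk homothetySetoid p.1 = Quotient.mk homothetySetoid p.2)

lemma hpairs_le (k : ℕ) (hk : 2 ≤ k) (X : Finset ℝ) :
    (hpairs k X).card ≤ ∑ φ ∈ maps X, (Bs X φ).card.choose k := by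
  classical
  have hsub : hpairs k X ⊆ ((maps X).sigma (fun φ => (Bs X φ).powersetCard k)).image
      (fun s => (s.2, s.2.image (fun x => s.1.1 * x + s.1.2))) := by
    rintro ⟨A, B⟩ h
    unfold hpairs at h
    rw [mem_filter, mem_product, mem_powersetCard, mem_powersetCard] at h
    obtain ⟨⟨⟨hA, hAk⟩, ⟨hB, hBk⟩⟩, hAB⟩ := h
    simp only at hA hAk hB hBk hAB
    obtain ⟨l, t, hl, rfl⟩ := Quotient.exact hAB
    have h2 : 1 < A.card := by omega
    obtain ⟨x, hx, y, hy, hne⟩ := one_lt_card.1 h2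
    wlog hxy : x < y generalizing x y
    · exact this y hy x hx hne.symm (lt_of_le_of_ne (not_lt.1 hxy) hne.symm)
    rw [mem_image]
    refine ⟨⟨(l, t), A⟩, ?_, rfl⟩
    rw [mem_sigma, mem_powersetCard]
    refine ⟨?_, ?_, hAk⟩
    · unfold maps
      rw [mem_image]
      refine ⟨((x, y), (l * x + t, l * y + t)), ?_, mapOf_eq hxy rfl rfl⟩
      rw [mem_product, mem_prs, mem_prs]
      refine ⟨⟨hA hx, hA hy, hxy⟩, ⟨hB (mem_image_of_mem _ hx), hB (mem_image_of_mem _ hy), ?_⟩⟩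
      simp only
      nlinarith
    · intro z hz
      rw [mem_Bs]
      exact ⟨hA hz, hB (mem_image_of_mem (fun x => l * x + t) hz)⟩
  calc (hpairs k X).card ≤ _ := card_le_card hsub
    _ ≤ ((maps X).sigma (fun φ => (Bs X φ).powersetCard k)).card := card_image_le
    _ = ∑ φ ∈ maps X, (Bs X φ).card.choose k := by
        rw [card_sigma]
        simp [card_powersetCard]

lemma choose_bound (k b n : ℕ) (hk : 4 ≤ k) (hb : b ≤ n) :
    (b.choose k : ℝ) ≤ 4 * (n : ℝ) ^ (k - 4) * ((b - 1 : ℕ) : ℝ) ^ 4 := by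
  rcases Nat.lt_or_ge b k with h | h
  · rw [Nat.choose_eq_zero_of_lt h]
    simp only [Nat.cast_zero]
    positivity
  · have h1 : b.choose k ≤ b ^ k := Nat.choose_le_pow b k
    have h2 : b ^ k = b ^ (k - 4) * b ^ 4 := by
      rw [← pow_add]; congr 1; omega
    have h3 : b ^ (k - 4) ≤ n ^ (k - 4) := Nat.pow_le_pow_left hb _
    have h4 : b ^ 4 ≤ 4 * (b - 1) ^ 4 := by
      obtain ⟨c, rfl⟩ : ∃ c, b = c + 1 := ⟨b - 1, by omega⟩
      have hc : 3 ≤ c := by omega
      simp only [Nat.add_sub_cancel]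
      have e : 3 * (c + 1) ≤ 4 * c := by omega
      have e2 : (3 * (c + 1)) ^ 4 ≤ (4 * c) ^ 4 := Nat.pow_le_pow_left e 4
      rw [mul_pow, mul_pow] at e2
      norm_num at e2
      nlinarith [Nat.zero_le (c ^ 4)]
    have h5 : b.choose k ≤ n ^ (k - 4) * (4 * (b - 1) ^ 4) := by
      calc b.choose k ≤ b ^ (k - 4) * b ^ 4 := by rw [← h2]; exact h1
        _ ≤ n ^ (k - 4) * (4 * (b - 1) ^ 4) := Nat.mul_le_mul h3 h4
    calc (b.choose k : ℝ) ≤ ((n ^ (k - 4) * (4 * (b - 1) ^ 4) : ℕ) : ℝ) := by exact_mod_cast h5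
      _ = 4 * (n : ℝ) ^ (k - 4) * ((b - 1 : ℕ) : ℝ) ^ 4 := by push_cast; ring

lemma hpairs_bound (k : ℕ) (hk : 4 ≤ k) (X : Finset ℝ) :
    ((hpairs k X).card : ℝ) ≤ 16 * (X.card : ℝ) ^ (k + 1) := by
  have h1 : ((hpairs k X).card : ℝ) ≤ ∑ φ ∈ maps X, ((Bs X φ).card.choose k : ℝ) := by
    exact_mod_cast hpairs_le k (by omega) X
  refine h1.trans ?_
  have h2 : ∑ φ ∈ maps X, ((Bs X φ).card.choose k : ℝ) ≤
      ∑ φ ∈ maps X, 4 * (X.card : ℝ) ^ (k - 4) * (((Bs X φ).card - 1 : ℕ) : ℝ) ^ 4 :=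
    sum_le_sum fun φ _ => choose_bound k _ _ hk (card_le_card (filter_subset _ _))
  refine h2.trans ?_
  rw [← mul_sum]
  calc 4 * (X.card : ℝ) ^ (k - 4) * ∑ φ ∈ maps X, (((Bs X φ).card - 1 : ℕ) : ℝ) ^ 4
      ≤ 4 * (X.card : ℝ) ^ (k - 4) * (4 * (X.card : ℝ) ^ 5) :=
        mul_le_mul_of_nonneg_left (sum_rich X) (by positivity)
    _ = 16 * ((X.card : ℝ) ^ (k - 4) * (X.card : ℝ) ^ 5) := by ring
    _ = 16 * (X.card : ℝ) ^ (k + 1) := by
        rw [← pow_add]
        congr 2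
        omega

open Classical in
lemma classCount_eq (k : ℕ) (X : Finset ℝ) :
    classCount k X = ((X.powersetCard k).image (Quotient.mk homothetySetoid)).card := by
  unfold classCount
  rw [← Set.ncard_coe_finset]
  congr 1
  rw [coe_image]
  congr 1
  ext A
  simp [mem_powersetCard]

/-- Cauchy-Schwarz -/
lemma cauchy (k : ℕ) (X : Finset ℝ) :
    ((X.card.choose k : ℕ) : ℝ) ^ 2 ≤ (classCount k X : ℝ) * ((hpairs k X).card : ℝ) := by
  classical
  set S := X.powersetCard k with hS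
  set mk := Quotient.mk homothetySetoid with hmk
  have h1 : X.card.choose k = ∑ c ∈ S.image mk, (S.filter (fun A => mk A = c)).card := by
    rw [← card_powersetCard k X]
    exact card_eq_sum_card_image mk S
  have h2 : (hpairs k X).card = ∑ c ∈ S.image mk, (S.filter (fun A => mk A = c)).card ^ 2 := by
    have e1 : (hpairs k X).card = ∑ A ∈ S, (S.filter (fun A' => mk A' = mk A)).card := by
      unfold hpairs
      rw [card_filter, sum_product]
      apply sum_congr rfl
      intro A _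
      rw [card_filter]
      apply sum_congr rfl
      intro B _
      simp only [hmk, eq_comm]
    rw [e1, ← sum_fiberwise_of_maps_to (fun A hA => mem_image_of_mem mk hA)]
    apply sum_congr rfl
    intro c _
    have : ∀ A ∈ S.filter (fun A => mk A = c),
        (S.filter (fun A' => mk A' = mk A)).card = (S.filter (fun A' => mk A' = c)).card := by
      intro A hA
      rw [mem_filter] at hA
      rw [hA.2]
    rw [sum_congr rfl this, sum_const, smul_eq_mul, sq]
  rw [classCount_eq, h1, h2]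
  push_cast
  exact sq_sum_le_card_mul_sum_sq

lemma lower (k : ℕ) (hk : 4 ≤ k) (X : Finset ℝ) (hX : 2 * k ≤ X.card) :
    (1 / (16 * 4 ^ k * (k.factorial : ℝ) ^ 2)) * (X.card : ℝ) ^ (k - 1) ≤ classCount k X := by
  set n := X.card with hn
  have hn0 : (0 : ℝ) < n := by
    have : 0 < n := by omega
    exact_mod_cast this
  have h1 := cauchy k X
  have h2 := hpairs_bound k hk X
  rw [← hn] at h1 h2
  have h3 : ((n : ℝ) / 2) ^ k ≤ (k.factorial : ℝ) * (n.choose k : ℝ) := by
    have h := Nat.pow_le_choose (α := ℝ) k n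
    have h' : ((n : ℝ) / 2) ^ k ≤ ((n + 1 - k : ℕ) : ℝ) ^ k := by
      apply pow_le_pow_left₀ (by positivity)
      have : n ≤ 2 * (n + 1 - k) := by omega
      have : (n : ℝ) ≤ 2 * ((n + 1 - k : ℕ) : ℝ) := by exact_mod_cast this
      linarith
    have hfac : (0 : ℝ) < k.factorial := by exact_mod_cast k.factorial_pos
    rw [div_le_iff₀ hfac] at h
    linarith
  have hcc : (0 : ℝ) ≤ classCount k X := by positivity
  have h4 : (n.choose k : ℝ) ^ 2 ≤ (classCount k X : ℝ) * (16 * (n : ℝ) ^ (k + 1)) :=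
    h1.trans (mul_le_mul_of_nonneg_left h2 hcc)
  have h5 : (((n : ℝ) / 2) ^ k) ^ 2 ≤ (k.factorial : ℝ) ^ 2 * (n.choose k : ℝ) ^ 2 := by
    rw [← mul_pow]
    exact pow_le_pow_left₀ (by positivity) h3 2
  have h6 : (((n : ℝ) / 2) ^ k) ^ 2 = (n : ℝ) ^ (k + 1) * (n : ℝ) ^ (k - 1) / 4 ^ k := by
    rw [← pow_add, ← pow_mul, div_pow]
    have e1 : k + 1 + (k - 1) = k * 2 := by omega
    rw [e1, mul_comm k 2, pow_mul (2 : ℝ) 2 k]
    norm_num
  have hfac : (0 : ℝ) < (k.factorial : ℝ) ^ 2 := by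
    have : (0 : ℝ) < k.factorial := by exact_mod_cast k.factorial_pos
    positivity
  have h7 : (n : ℝ) ^ (k + 1) * (n : ℝ) ^ (k - 1) / 4 ^ k ≤
      (k.factorial : ℝ) ^ 2 * ((classCount k X : ℝ) * (16 * (n : ℝ) ^ (k + 1))) := by
    rw [← h6]
    exact h5.trans (mul_le_mul_of_nonneg_left h4 hfac.le)
  have hp : (0 : ℝ) < (n : ℝ) ^ (k + 1) := by positivity
  rw [div_le_iff₀ (by positivity)] at h7
  rw [one_div, inv_mul_le_iff₀ (by positivity)]
  have h8 : (n : ℝ) ^ (k + 1) * (n : ℝ) ^ (k - 1) ≤ (n : ℝ) ^ (k + 1) *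
      (16 * 4 ^ k * (k.factorial : ℝ) ^ 2 * (classCount k X : ℝ)) := by
    calc (n : ℝ) ^ (k + 1) * (n : ℝ) ^ (k - 1) ≤ _ := h7
      _ = _ := by ring
  exact le_of_mul_le_mul_left h8 hp

/-! ### Upper bound: the arithmetic progression -/

lemma upper (k n : ℕ) (hk : 1 ≤ k) :
    classCount k ((range n).image (fun i : ℕ => (i : ℝ))) ≤ n ^ (k - 1) := by
  classical
  set X : Finset ℝ := (range n).image (fun i : ℕ => (i : ℝ)) with hX
  rw [classCount_eq]
  have hXcard : X.card = n := by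
    rw [hX, card_image_of_injective _ Nat.cast_injective, card_range]
  have hsub : (X.powersetCard k).image (Quotient.mk homothetySetoid) ⊆
      (X.powersetCard (k - 1)).image (fun A => Quotient.mk homothetySetoid (insert 0 A)) := by
    intro c hc
    rw [mem_image] at hc
    obtain ⟨A, hA, rfl⟩ := hc
    rw [mem_powersetCard] at hA
    have hne : A.Nonempty := by
      rw [← card_pos]; omega
    obtain ⟨mn, hmn⟩ : ∃ mn, mn = A.min' hne := ⟨_, rfl⟩
    have hmnA : mn ∈ A := hmn ▸ A.min'_mem hne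
    rw [mem_image]
    refine ⟨(A.erase mn).image (fun x => x - mn), ?_, ?_⟩
    · rw [mem_powersetCard]
      constructor
      · intro z hz
        rw [mem_image] at hz
        obtain ⟨x, hx, rfl⟩ := hz
        rw [mem_erase] at hx
        have hx' := hA.1 hx.2
        have hm' := hA.1 hmnA
        rw [hX, mem_image] at hx' hm'
        obtain ⟨i, hi, hi'⟩ := hx'
        obtain ⟨j, hj, hj'⟩ := hm'
        have hle : mn ≤ x := hmn ▸ A.min'_le x hx.2
        rw [← hi', ← hj'] at hle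
        have hle' : j ≤ i := by exact_mod_cast hle
        rw [hX, mem_image]
        refine ⟨i - j, ?_, ?_⟩
        · rw [mem_range] at hi ⊢; omega
        · rw [Nat.cast_sub hle', hi', hj']
      · rw [card_image_of_injective _ (sub_left_injective), card_erase_of_mem hmnA, hA.2]
    · apply Quotient.sound
      refine ⟨1, mn, one_pos, ?_⟩
      rw [image_insert, image_image]
      have : ((fun x : ℝ => 1 * x + mn) ∘ fun x => x - mn) = id := by
        funext x
        simp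
      rw [this, image_id]
      simp only [mul_zero, zero_add]
      exact insert_erase hmnA
  calc ((X.powersetCard k).image (Quotient.mk homothetySetoid)).card
      ≤ _ := card_le_card hsub
    _ ≤ (X.powersetCard (k - 1)).card := card_image_le
    _ = n.choose (k - 1) := by rw [card_powersetCard, hXcard]
    _ ≤ n ^ (k - 1) := Nat.choose_le_pow n (k - 1)

/-- For every `k ≥ 4`, the minimum number of homothety classes of `k`-subsets of `n` reals has
order of magnitude `n ^ (k - 1)`. -/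
theorem result : ∀ k : ℕ, 4 ≤ k →
    (fun n : ℕ => (minClasses k n : ℝ)) =Θ[Filter.atTop] (fun n : ℕ => (n : ℝ) ^ (k - 1)) := by
  intro k hk
  constructor
  · apply Asymptotics.IsBigO.of_bound 1
    filter_upwards with n
    rw [one_mul, Real.norm_of_nonneg (by positivity), Real.norm_of_nonneg (by positivity)]
    have h1 : minClasses k n ≤ n ^ (k - 1) := by
      refine le_trans (Nat.sInf_le ?_) (upper k n (by omega))
      refine ⟨_, ?_, rfl⟩
      rw [card_image_of_injective _ Nat.cast_injective, card_range]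
    exact_mod_cast h1
  · apply Asymptotics.IsBigO.of_bound (16 * 4 ^ k * (k.factorial : ℝ) ^ 2)
    filter_upwards [Filter.eventually_ge_atTop (2 * k)] with n hn
    rw [Real.norm_of_nonneg (by positivity), Real.norm_of_nonneg (by positivity)]
    have hne : {c : ℕ | ∃ X : Finset ℝ, X.card = n ∧ classCount k X = c}.Nonempty := by
      refine ⟨_, (range n).image (fun i : ℕ => (i : ℝ)), ?_, rfl⟩
      rw [card_image_of_injective _ Nat.cast_injective, card_range]
    obtain ⟨X, hX, hc⟩ := Nat.sInf_mem hne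
    have h := lower k hk X (by omega)
    have hfac : (0 : ℝ) < (k.factorial : ℝ) ^ 2 := by
      have : (0 : ℝ) < k.factorial := by exact_mod_cast k.factorial_pos
      positivity
    have hc' : minClasses k n = classCount k X := hc.symm
    rw [hX, one_div, inv_mul_le_iff₀ (by positivity)] at h
    rw [hc']
    exact h

end Pool.Agent.Results.MP_9322ca_co.ThetaKGeFour
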